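import Mathlib
import Pool.Agent.V5helper94.MT.Tr

/-!
# The Mumford-Tate conjecture for `H^2` at every prime `ℓ`, from the Frobenius eigenvalues over one
prime number

Let `X` be a smooth projective variety over a field `k` which is finitely generated over `ℚ`, and
`H^2(X, ℚ)(1) = V ⊕ T_1 ⊕ ... ⊕ T_r`, where the `T_i` are pairwise non-isomorphic big polarised
Hodge structures without endomorphisms besides the rational scalars (`T.Big c p q`: the Hodge numbers
of `T_i` are `(p_i, q_i, p_i)`, and `p_i = 1` or `2 p_i^2 (p_i^2 + 1) < (q_i - 2 p_i) (q_i + p_i)`;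
`c a` says to which summand the `a`-th basis vector of `T = ⊕ T_i` belongs), of any ranks `≥ 5`, odd or
even. For `V` there are two possibilities:

* `V` is the space of algebraic classes (type `(0,0)`, with a finite Galois action); or
* `V` is any Hodge structure of abelian type (for example, in the tensor category generated by the
  `H^1` of abelian varieties) and all `p_i` are at least `2`.

`Γ` is the Galois group of `k` (or the fundamental group of a model), `K` a number field and
`s : G_K → Γ` the homomorphism given by a closed point of the generic fibre of a model of `X` (if `k`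
is a number field, then `K = k` and `s` is the identity). At the places `v` of `K` of good reduction
(`v ∉ S`) the characteristic polynomial of the geometric Frobenius on `T_i(-1)` is a polynomial `R_i(v)`
with integral coefficients which does not depend on `ℓ`, with roots of absolute value `N(v)`
(Deligne; for `r > 1` and for `V` not algebraic the Galois representations on the summands and these
properties are part of the data, they hold if the decomposition is given by algebraic
correspondences).

Let `p₀` be ONE prime number which splits completely in `K` (if `K = ℚ` this is any prime number), and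
such that the places above `p₀` are good. Suppose that the Frobenius eigenvalues `z / p₀` of the `T_i`
(`z` the roots of the `R_i(v)`, `v` above `p₀`) are different from `-1`, simple for each `T_i`, and satisfy
only the trivial multiplicative relations, those which follow from `(z / p₀) * conj (z / p₀) = 1`
(and, in the second case for `V`, that some eigenvalue of each `T_i` at some place above `p₀` is
multiplicatively independent of the eigenvalues of `V`).

**Theorem.** For EVERY prime number `ℓ ≠ p₀`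

1. the representations `T_i ⊗ ℚ_ℓ` of `Γ` are semisimple;
2. the Mumford-Tate conjecture for `H^2(X)` at `ℓ` is equivalent to the Mumford-Tate conjecture for `V` at
   `ℓ` (which holds for the algebraic classes) and the statement that the endomorphisms of `T_i ⊗ ℚ_ℓ` which
   commute with an open subgroup of `Γ` are the scalars (the Tate conjecture for the endomorphisms
   of `T_i`).

So over one prime number one can check that the only obstruction to the conjecture for `H^2(X)`, at
every `ℓ`, are Tate classes in `T_i ⊗ T_i`, and all the other properties (semisimplicity, the size of the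
group, the independence of the summands) are proved. No `p`-adic Hodge theory is used and
nothing is assumed about any prime `ℓ`.

Idea of the proof. (1) If `W` is a stable subspace, then `W ∩ W^⊥` is isotropic, so the Frobenius
eigenvalues on it at the places above `p₀` do not contain a pair `z`, `p₀^2 / z`; the determinant of this
subspace is a character of `G_K` with values which are pure algebraic integers, hence by class field
theory the product of its values over all places above `p₀` is a power of `p₀` up to a root of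
unity: a nontrivial relation (the method of the starting files, applied to `T_i(-1)`). (2) By (1) and
the hypothesis on endomorphisms the open subgroups act on `T_i ⊗ ℚ_ℓ` absolutely irreducibly. The Lie
algebra of the image is stable under the Frobenius element, and since its eigenvalues have no
relations, this Lie algebra contains all root spaces: it is `so(T_i)` (with different arguments for even
and odd rank). By the lemma of Goursat and Ribet it is the product of the `so(T_i)`, because a
nonzero equivariant map would give a relation between the eigenvalues of `T_i` and `T_j`. So the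
monodromy group contains `1 × ∏ SO(T_i)`, which is also the part of the Mumford-Tate group. For the
converse the isometries of determinant `1` commute with the endomorphisms.
-/

set_option autoImplicit false

namespace Pool.Agent.Results.MP_6369ef_ag.EveryPrimeFromSplitPrime

open MvPolynomial Matrix NumberField IsDedekindDomain
open Pool.Agent.W544.PG (HS BD)

noncomputable section

section groups

variable {ι : Type} [Fintype ι] [DecidableEq ι]

/-- The value of a rational polynomial in the entries at a matrix. -/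
def value {R : Type} [CommRing R] [Algebra ℚ R] (g : Matrix ι ι R)
    (f : MvPolynomial (ι × ι) ℚ) : R :=
  aeval (fun q : ι × ι => g q.1 q.2) f

/-- `G` is the set of complex points of an algebraic subgroup over `ℚ` of the general linear
group. -/
def IsQGroup (G : Set (Matrix ι ι ℂ)) : Prop :=
  (∃ P : Set (MvPolynomial (ι × ι) ℚ), ∀ g, g ∈ G ↔ g.det ≠ 0 ∧ ∀ f ∈ P, value g f = 0) ∧
  1 ∈ G ∧ (∀ a ∈ G, ∀ b ∈ G, a * b ∈ G) ∧ ∀ a ∈ G, a⁻¹ ∈ G

/-- The complex points of the Mumford-Tate group: the smallest algebraic subgroup over `ℚ` which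
contains `h z` for all `z`. -/
def mumfordTate (h : ℂ → Matrix ι ι ℂ) : Set (Matrix ι ι ℂ) :=
  {g | ∀ G, IsQGroup G → (∀ z, z ≠ 0 → h z ∈ G) → g ∈ G}

/-- The points of the Mumford-Tate group over a field `R`. -/
def InMumfordTate {R : Type} [Field R] [Algebra ℚ R] (h : ℂ → Matrix ι ι ℂ)
    (g : Matrix ι ι R) : Prop :=
  ∀ f : MvPolynomial (ι × ι) ℚ, (∀ m ∈ mumfordTate h, value m f = 0) → value g f = 0

/-- The Lie algebra of the Mumford-Tate group (over the complex numbers): the tangent space at
`1`. -/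
def lieMumfordTate (h : ℂ → Matrix ι ι ℂ) : Set (Matrix ι ι ℂ) :=
  {y | ∀ f : MvPolynomial (ι × ι) ℚ, (∀ m ∈ mumfordTate h, value m f = 0) →
    ∑ x : ι × ι, y x.1 x.2 * value (1 : Matrix ι ι ℂ) (pderiv x f) = 0}

variable {ℓ : ℕ} [Fact ℓ.Prime] {Γ : Type} [Group Γ]

/-- The points of the identity component of the Zariski closure of `ρ(Γ)` over the algebraic
closure of `ℚ_ℓ`: a polynomial that vanishes on the image of a subgroup of finite index vanishes
at `g`. -/
def InMonodromy (ρ : Γ →* Matrix ι ι ℚ_[ℓ]) (g : Matrix ι ι (AlgebraicClosure ℚ_[ℓ])) : Prop :=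
  ∀ f : MvPolynomial (ι × ι) (AlgebraicClosure ℚ_[ℓ]),
    (∃ Δ : Subgroup Γ, Δ.FiniteIndex ∧ ∀ s ∈ Δ,
      aeval (fun q : ι × ι => algebraMap ℚ_[ℓ] (AlgebraicClosure ℚ_[ℓ]) (ρ s q.1 q.2)) f = 0) →
    aeval (fun q : ι × ι => g q.1 q.2) f = 0

/-- The Mumford-Tate conjecture: the two groups agree over `ℚ_ℓ`. -/
def MumfordTateConjecture (h : ℂ → Matrix ι ι ℂ) (ρ : Γ →* Matrix ι ι ℚ_[ℓ]) : Prop :=
  ∀ g : Matrix ι ι (AlgebraicClosure ℚ_[ℓ]), g.det ≠ 0 → (InMonodromy ρ g ↔ InMumfordTate h g)

end groups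

variable {κ : Type} [Fintype κ] [DecidableEq κ] {n r : ℕ}

/-- A rational Hodge structure on `ℚ^κ`: the projections `e (a, b)` to the pieces of type `(a, b)`
of `ℂ^κ`; they are exchanged by complex conjugation, and the pieces of every weight are defined
over `ℚ`. -/
structure RationalHodgeStructure (κ : Type) [Fintype κ] [DecidableEq κ] where
  /-- the types which occur -/
  types : Finset (ℤ × ℤ)
  /-- the projections -/
  e : ℤ × ℤ → Matrix κ κ ℂ
  mul : ∀ a ∈ types, ∀ b ∈ types, e a * e b = if a = b then e a else 0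
  sum : ∑ a ∈ types, e a = 1
  conj : ∀ a ∈ types, a.swap ∈ types ∧ (e a).map (starRingEnd ℂ) = e a.swap
  weight : ∀ w : ℤ, ∃ P : Matrix κ κ ℚ,
    ∑ a ∈ types with a.1 + a.2 = w, e a = P.map (algebraMap ℚ ℂ)

/-- The action of `ℂ^×`: multiplication by `z ^ (-a) * conj z ^ (-b)` on the piece of type
`(a, b)`. -/
def RationalHodgeStructure.h (V : RationalHodgeStructure κ) (z : ℂ) : Matrix κ κ ℂ :=
  ∑ a ∈ V.types, (z ^ (-a.1) * starRingEnd ℂ z ^ (-a.2)) • V.e a

/-- The operator which is `a - b` on the piece of type `(a, b)`. -/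
def RationalHodgeStructure.X (V : RationalHodgeStructure κ) : Matrix κ κ ℂ :=
  ∑ a ∈ V.types, ((a.1 - a.2 : ℤ) : ℂ) • V.e a

/-- The Lie algebra of the Mumford-Tate group of `V` has only the Hodge types `(-1,1)`, `(0,0)`,
`(1,-1)`: the eigenvalues of the commutator with `V.X` on it are `-2`, `0`, `2`. -/
def RationalHodgeStructure.AbelianType (V : RationalHodgeStructure κ) : Prop :=
  ∀ y ∈ lieMumfordTate V.h, ⁅V.X, ⁅V.X, ⁅V.X, y⁆⁆⁆ = (4 : ℂ) • ⁅V.X, y⁆

/-- The action of `ℂ^×` on `T`: multiplication by `conj z / z`, `1`, `z / conj z` on the parts where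
`T.x` is `1`, `0`, `-1`. -/
def hodgeT (T : HS n) (z : ℂ) : Matrix (Fin n) (Fin n) ℂ :=
  1 + ((starRingEnd ℂ z / z - 1) / 2) • (T.x * T.x + T.x) +
    ((z / starRingEnd ℂ z - 1) / 2) • (T.x * T.x - T.x)

/-- The action of `ℂ^×` on `V ⊕ T`. -/
def hodge (V : RationalHodgeStructure κ) (T : HS n) (z : ℂ) :
    Matrix (κ ⊕ Fin n) (κ ⊕ Fin n) ℂ :=
  fromBlocks (V.h z) 0 0 (hodgeT T z)

section galois

variable {ℓ : ℕ} [Fact ℓ.Prime] {Γ : Type} [Group Γ]

/-- An `ℓ`-adic integral matrix as a matrix over `ℚ_ℓ`. -/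
def rat (g : Matrix (Fin n) (Fin n) ℤ_[ℓ]) : Matrix (Fin n) (Fin n) ℚ_[ℓ] :=
  g.map (algebraMap ℤ_[ℓ] ℚ_[ℓ])

/-- The representation `α ⊕ β` of the Galois group on `V ⊕ T`. -/
def galois (α : Γ →* Matrix κ κ ℚ_[ℓ]) (β : Γ →* Matrix (Fin n) (Fin n) ℤ_[ℓ]) :
    Γ →* Matrix (κ ⊕ Fin n) (κ ⊕ Fin n) ℚ_[ℓ] where
  toFun σ := fromBlocks (α σ) 0 0 (rat (β σ))
  map_one' := (Pool.Agent.Y95.MT.tot α β).map_one
  map_mul' := (Pool.Agent.Y95.MT.tot α β).map_mul

/-- The matrix of `σ` on `T_i ⊗ ℚ_ℓ`. -/
def block (c : Fin n → Fin r) (β : Γ →* Matrix (Fin n) (Fin n) ℤ_[ℓ]) (i : Fin r) (σ : Γ) :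
    Matrix {a // c a = i} {a // c a = i} ℚ_[ℓ] :=
  Matrix.of fun a b => rat (β σ) a b

/-- The representation `T_i ⊗ ℚ_ℓ` is semisimple: every stable subspace has a stable complement. -/
def IsSemisimple (c : Fin n → Fin r) (β : Γ →* Matrix (Fin n) (Fin n) ℤ_[ℓ]) (i : Fin r) : Prop :=
  ∀ W : Submodule ℚ_[ℓ] ({a // c a = i} → ℚ_[ℓ]), (∀ σ, ∀ w ∈ W, block c β i σ *ᵥ w ∈ W) →
    ∃ W' : Submodule ℚ_[ℓ] ({a // c a = i} → ℚ_[ℓ]), IsCompl W W' ∧
      ∀ σ, ∀ w ∈ W', block c β i σ *ᵥ w ∈ W'

/-- The endomorphisms of `T_i ⊗ ℚ_ℓ` which commute with an open subgroup of `Γ` are the scalars. -/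
def OnlyScalarEndomorphisms [TopologicalSpace Γ] (c : Fin n → Fin r)
    (β : Γ →* Matrix (Fin n) (Fin n) ℤ_[ℓ]) (i : Fin r) : Prop :=
  ∀ (A : Matrix {a // c a = i} {a // c a = i} ℚ_[ℓ]) (U : Subgroup Γ), IsOpen (U : Set Γ) →
    (∀ σ ∈ U, A * block c β i σ = block c β i σ * A) →
    ∃ z : ℚ_[ℓ], A = z • (1 : Matrix {a // c a = i} {a // c a = i} ℚ_[ℓ])

end galois

/-- the absolute Galois group of `K`, with its profinite (Krull) topology -/
abbrev AbsoluteGaloisGroup (K : Type) [Field K] : Type := Gal(AlgebraicClosure K/K)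

section places

variable {K : Type} [Field K] [NumberField K]

/-- `σ` is an (arithmetic) Frobenius element at the prime `v` of the number field `K`: for some prime
`Q` of the algebraic closure above `v` it acts on the residue field as `x ↦ x ^ N(v)` -/
def IsFrobenius (v : HeightOneSpectrum (𝓞 K)) (σ : AbsoluteGaloisGroup K) : Prop :=
  ∃ Q : Ideal (𝓞 (AlgebraicClosure K)), Q.IsMaximal ∧
    Q.comap (algebraMap (𝓞 K) (𝓞 (AlgebraicClosure K))) = v.asIdeal ∧
    ∀ x : 𝓞 (AlgebraicClosure K), σ • x - x ^ Ideal.absNorm v.asIdeal ∈ Q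

/-- The Frobenius polynomials of the `T_i(-1)` outside the finite set `S`: monic, with integral
coefficients and with complex roots of absolute value `N(v)`. -/
def ArePure (S : Set (HeightOneSpectrum (𝓞 K)))
    (R : Fin r → HeightOneSpectrum (𝓞 K) → Polynomial ℤ) : Prop :=
  S.Finite ∧ ∀ i, ∀ v ∉ S, (R i v).Monic ∧
    ∀ z : ℂ, Polynomial.aeval z (R i v) = 0 → ‖z‖ = (Ideal.absNorm v.asIdeal : ℝ)

/-- `α` and `β` are the representations on `V ⊗ ℚ_ℓ` and on `T ⊗ ℤ_ℓ`: both are continuous, `β` preserves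
the form and the decomposition of `T`, and for all `v ∉ S` which are prime to `ℓ` the characteristic
polynomials of (the image under `s` of) the geometric Frobenius elements `σ⁻¹` (`σ` arithmetic) at `v`
on `T_i(-1)` (that is, of `N(v)` times the matrix on `T_i`) and on `V` are `R i v` and `E v`. -/
structure IsSystem {Γ : Type} [Group Γ] [TopologicalSpace Γ] (s : AbsoluteGaloisGroup K →* Γ)
    (T : HS n) (c : Fin n → Fin r) (S : Set (HeightOneSpectrum (𝓞 K)))
    (R : Fin r → HeightOneSpectrum (𝓞 K) → Polynomial ℤ)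
    (E : HeightOneSpectrum (𝓞 K) → Polynomial ℚ) (ℓ : ℕ) [Fact ℓ.Prime]
    (α : Γ →* Matrix κ κ ℚ_[ℓ]) (β : Γ →* Matrix (Fin n) (Fin n) ℤ_[ℓ]) : Prop where
  continuous_α : Continuous α
  continuous_β : Continuous β
  form : ∀ σ, (rat (β σ))ᵀ * T.Q.map (algebraMap ℚ ℚ_[ℓ]) * rat (β σ) =
    T.Q.map (algebraMap ℚ ℚ_[ℓ])
  blocks : ∀ σ, BD c (β σ)
  frobenius : ∀ v ∉ S, (ℓ : 𝓞 K) ∉ v.asIdeal → ∀ σ : AbsoluteGaloisGroup K, IsFrobenius v σ →
    (∀ i, ((Ideal.absNorm v.asIdeal : ℚ_[ℓ]) • block c β i (s σ⁻¹)).charpoly =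
      (R i v).map (algebraMap ℤ ℚ_[ℓ])) ∧
    (α (s σ⁻¹)).charpoly = (E v).map (algebraMap ℚ ℚ_[ℓ])

/-- `v` is a list of `[K : ℚ]` different places of `K` of norm `p` outside `S` (so the prime number
`p` splits completely in `K`, and these are the places above `p`). -/
def SplitsCompletely (S : Set (HeightOneSpectrum (𝓞 K))) (p : ℕ)
    (v : Fin (Module.finrank ℚ K) → HeightOneSpectrum (𝓞 K)) : Prop :=
  p.Prime ∧ Function.Injective v ∧ ∀ a, Ideal.absNorm (v a).asIdeal = p ∧ v a ∉ S

/-- the complex roots of a polynomial, without multiplicities -/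
def complexRoots (R : Polynomial ℤ) : Finset ℂ := (R.aroots ℂ).toFinset

/-- The roots `z` of the polynomials `R i (v a)` are simple and different from `-p`, and the numbers
`z / p` satisfy only the trivial multiplicative relations (a number and its complex conjugate
have the same exponent). -/
def OnlyTrivialRelations (R : Fin r → HeightOneSpectrum (𝓞 K) → Polynomial ℤ) (p : ℕ)
    (v : Fin (Module.finrank ℚ K) → HeightOneSpectrum (𝓞 K)) : Prop :=
  (∀ a i, ((R i (v a)).map (Int.castRingHom ℚ)).Separable ∧ (R i (v a)).eval (-(p : ℤ)) ≠ 0) ∧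
  ∀ k : Fin (Module.finrank ℚ K) → Fin r → ℂ → ℤ,
    ∏ a, ∏ i, ∏ z ∈ complexRoots (R i (v a)), (z / p) ^ k a i z = 1 →
    ∀ a i, ∀ z ∈ complexRoots (R i (v a)), k a i z = k a i (starRingEnd ℂ z)

/-- Some root of `R`, divided by `p`, has no positive power in the multiplicative group generated
by the roots of `E`. -/
def HasIndependentRoot (R : Polynomial ℤ) (p : ℕ) (E : Polynomial ℚ) : Prop :=
  ∃ x : ℂˣ, Polynomial.aeval ((p : ℂ) * x) R = 0 ∧
    ∀ m : ℕ, 0 < m → x ^ m ∉ Subgroup.closure {y : ℂˣ | Polynomial.aeval (y : ℂ) E = 0}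

end places

/-- **The Mumford-Tate conjecture for `H^2 = V ⊕ T` at every prime, from the Frobenius eigenvalues
over one prime number `p₀`: it is equivalent to the statement on endomorphisms.** -/
theorem result (T : HS n) (c : Fin n → Fin r) (p q : Fin r → ℕ) (hT : T.Big c p q)
    (hrk : ∀ i, 5 ≤ 2 * p i + q i)
    -- the representations
    (K : Type) [Field K] [NumberField K] (Γ : Type) [Group Γ] [TopologicalSpace Γ]
    [IsTopologicalGroup Γ] [CompactSpace Γ] (s : AbsoluteGaloisGroup K →* Γ) (hs : Continuous s)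
    (S : Set (HeightOneSpectrum (𝓞 K))) (R : Fin r → HeightOneSpectrum (𝓞 K) → Polynomial ℤ)
    (hR : ArePure S R) (E : HeightOneSpectrum (𝓞 K) → Polynomial ℚ)
    (V : RationalHodgeStructure κ)
    (α : ∀ (ℓ : ℕ) [Fact ℓ.Prime], Γ →* Matrix κ κ ℚ_[ℓ])
    (β : ∀ (ℓ : ℕ) [Fact ℓ.Prime], Γ →* Matrix (Fin n) (Fin n) ℤ_[ℓ])
    (hsys : ∀ (ℓ : ℕ) [Fact ℓ.Prime], IsSystem s T c S R E ℓ (α ℓ) (β ℓ))
    -- the prime number `p₀`
    (p₀ : ℕ) (v : Fin (Module.finrank ℚ K) → HeightOneSpectrum (𝓞 K))
    (hv : SplitsCompletely S p₀ v) (hrel : OnlyTrivialRelations R p₀ v)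
    -- the Hodge structure `V`
    (hV : (V.types = {(0, 0)} ∧ ∀ (ℓ : ℕ) [Fact ℓ.Prime], (Set.range (α ℓ)).Finite) ∨
      (V.AbelianType ∧ (∀ i, 2 ≤ p i) ∧ ∀ i, ∃ a, HasIndependentRoot (R i (v a)) p₀ (E (v a)))) :
    ∀ (ℓ : ℕ) [Fact ℓ.Prime], ℓ ≠ p₀ →
      (∀ i, IsSemisimple c (β ℓ) i) ∧
      (MumfordTateConjecture (hodge V T) (galois (α ℓ) (β ℓ)) ↔
        MumfordTateConjecture V.h (α ℓ) ∧ ∀ i, OnlyScalarEndomorphisms c (β ℓ) i) := by
  intro ℓ hℓ hne
  obtain ⟨hp₀, hinj, hnv⟩ := hv
  obtain ⟨hsg, hk⟩ := hrel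
  have sys := hsys ℓ
  have hdata : Pool.Agent.V5helper94.MT.Data S R p₀ v :=
    { fin := hR.1
      mon := fun i v hv => (hR.2 i v hv).1
      pure := fun i v hv => (hR.2 i v hv).2
      prime := hp₀
      inj := hinj
      norm := fun a => (hnv a).1
      good := fun a => (hnv a).2
      sep := fun a i => (hsg a i).1
      neg := fun a i => (hsg a i).2
      triv := Pool.Agent.V5helper94.MT.triv_of (R := fun i a => R i (v a)) hp₀.pos
        (fun i a => (hR.2 i _ (hnv a).2).1)
        (fun i a z hz => by rw [(hR.2 i _ (hnv a).2).2 z hz, (hnv a).1]) hk }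
  have hblk : ∀ i σ, Pool.Agent.V5helper94.MT.blk sys.blocks i σ =
      (block c (β ℓ) i σ).submatrix (Pool.Agent.V5helper94.MT.eb c i)
        (Pool.Agent.V5helper94.MT.eb c i) := fun i σ => rfl
  have hF : Pool.Agent.V5helper94.MT.Frob s S R sys.blocks := by
    intro i w hw hwℓ σ hσ
    rw [← (sys.frobenius w hw hwℓ σ hσ).1 i, hblk]
    exact Matrix.charpoly_reindex (Pool.Agent.V5helper94.MT.eb c i).symm
      ((Ideal.absNorm w.asIdeal : ℚ_[ℓ]) • block c (β ℓ) i (s σ⁻¹))
  have hg : Pool.Agent.Y95.MT.GalT c T.Q (β ℓ) := ⟨sys.form, sys.blocks⟩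
  have hpl : p₀ ≠ ℓ := Ne.symm hne
  have hN : ∀ i, 5 ≤ Pool.Agent.V5helper94.MT.Nb c i := fun i => by
    rw [Pool.Agent.V5helper94.MT.Nb_eq hT]
    exact hrk i
  have hsc : (∀ i, OnlyScalarEndomorphisms c (β ℓ) i) ↔
      ∀ i, Pool.Agent.R932.EV.SC (Pool.Agent.V5helper94.MT.blk sys.blocks i) := by
    refine forall_congr' fun i => ?_
    exact (Pool.Agent.V5helper94.MT.sc_tr (Pool.Agent.V5helper94.MT.eb c i) (hblk i)).symm
  refine ⟨fun i => ?_, ?_⟩
  · exact Pool.Agent.V5helper94.MT.ss_tr (Pool.Agent.V5helper94.MT.eb c i) (hblk i)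
      (hdata.SS hs sys.continuous_β hg sys.blocks hT.bQ hF hpl i)
  · rw [hsc]
    rcases hV with ⟨hV0, hfin⟩ | ⟨hVa, hp2, hind⟩
    · have hVh : V.h = fun _ => (1 : Matrix κ κ ℂ) := by
        funext z
        have h1 := V.sum
        rw [hV0, Finset.sum_singleton] at h1
        unfold RationalHodgeStructure.h
        rw [hV0, Finset.sum_singleton, h1]
        simp
      have h2 := hdata.mtcN hs sys.continuous_α (hfin ℓ) sys.continuous_β hg sys.blocks hT hN hF hpl
      have h3 : MumfordTateConjecture V.h (α ℓ) := by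
        rw [hVh]
        exact Pool.Agent.Y95.MT.MTC_N (hfin ℓ)
      have h4 : hodge V T = Pool.Agent.Y95.MT.hM (fun _ => (1 : Matrix κ κ ℂ)) T := by
        funext z
        show fromBlocks (V.h z) 0 0 (hodgeT T z) = _
        rw [hVh]
        rfl
      rw [h4]
      exact ⟨fun h => ⟨h3, h2.1 h⟩, fun h => h2.2 h.2⟩
    · have h1 := hdata.mtcT hs sys.continuous_β hg sys.blocks hT hN hF hpl
      have h2 := Pool.Agent.R932.main_ind (T := T) (c := c) (p := p) (q := q) (v := α ℓ)
        (β := β ℓ) hT hp2 ⟨V.types, V.e, V.mul, V.sum, V.conj, V.weight⟩ hVa hg (fun i => by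
          obtain ⟨a, x, hx, hm⟩ := hind i
          obtain ⟨σ, hσ⟩ := Pool.Agent.W401.Frob.exists_frob (v a)
          refine ⟨s σ⁻¹, Pool.Agent.V5helper94.MT.ind_block sys.blocks i _ ?_⟩
          exact Pool.Agent.R932.ind_of_complex
            ((Pool.Agent.V5helper94.MT.tw_root_iff hp₀.pos (hR.2 i _ (hnv a).2).1).2 hx) hm
            (sys.frobenius (v a) (hnv a).2 (hdata.notMem hpl a) σ hσ).2
            (hdata.frob_tw sys.blocks hF hpl a i hσ))
      rw [← h1]
      exact h2

end

end Pool.Agent.Results.MP_6369ef_ag.EveryPrimeFromSplitPrime
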