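import Pool.Agent.V5helper84.QT.Sym

/-!
# The Mumford-Tate conjecture for `H^2` and the fourth tensor power of `H^2`

Let `X` be a smooth projective variety over a finitely generated field of characteristic zero, with
Galois group `Γ`. `V` is the space `H^2(X, ℚ_ℓ)(1)`, written as a direct sum of representations `ρ i` of `Γ`
on spaces `ℚ_ℓ ^ (n i)` (there can be only one summand), and `𝔪` is the Lie algebra of the Mumford-Tate
group of `H^2(X, ℚ)(1)`, over `ℚ_ℓ`. The form `ω` on `V` is given by the polarization (`x y h^(d-2)`,
`h` the class of an ample divisor). What is used about Hodge theory (`IsMumfordTateLie`): `𝔪` is a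
Lie algebra with nondegenerate trace form, `V` is a semisimple representation of `𝔪`, and the
elements of `𝔪` are skew for `ω`; the `ℚ_ℓ`-combinations of Hodge classes are the tensors killed by `𝔪`,
since the Mumford-Tate group is reductive. On the `ℓ`-adic side: `Γ` preserves `ω`.

For general `X` neither of the inclusions between the Mumford-Tate group and the identity component of
the `ℓ`-adic monodromy group is known: it is not known that the Hodge classes on the powers of `H^2` are
absolute Hodge classes or Tate classes. **Nothing of this kind is assumed for the other tensor powers.**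

Consider only the fourth tensor power of `V` (classes in `H^8(X^4)(4)`), written as forms in four variables
on `V`:

* `HodgeAreTate4`: the Hodge classes in `V^{⊗ 4}` are Tate classes (fixed by an open subgroup);
* `TateAreHodge4`: the Tate classes in `V^{⊗ 4}` are combinations of Hodge classes.

`MumfordTate` is the Mumford-Tate conjecture: `𝔪` is the Lie algebra of all endomorphisms which kill all
Tate tensors in all tensor spaces of `V` and its dual space. (If `V` is semisimple this is the Lie algebra of
the `ℓ`-adic monodromy group.) `NoCM` says that the centre of the algebra of endomorphisms of the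
Hodge structure `V` (the commutant of `𝔪`) contains no skew element except zero; this means that its
factors are totally real fields, so that no factor of the Hodge structure is of CM type or of unitary
type. `SameBrackets` says that the elements `X Y - Y X`, `X` and `Y` in `𝔪`, are the elements
`X Y - Y X`, `X` and `Y` in the Lie algebra of the endomorphisms killing all Tate tensors; so the semisimple
parts of the two Lie algebras, and the derived groups of the two groups, are equal.

**Theorem.** Let `X` be any smooth projective variety over a finitely generated field of characteristic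
zero, `ℓ` a prime number.

1. If `V` is semisimple, and if the Hodge classes and the Tate classes in the fourth tensor power
   of `H^2` agree, then the Mumford-Tate group and the identity component of the `ℓ`-adic monodromy
   group have the same derived group (`SameBrackets`).
2. Suppose that `V` is semisimple, that `NoCM` holds and that the Hodge classes in the fourth
   tensor power are Tate classes (for instance because they are absolute Hodge classes). The
   Mumford-Tate conjecture holds for `H^2(X)` **if and only if** the Tate classes in the fourth tensor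
   power are combinations of Hodge classes.
3. Suppose that the Hodge classes in the fourth tensor power are Tate classes and that every Lie
   algebra of endomorphisms of `V` which is stable under an open subgroup of `Γ` is stable under
   `𝔪` (`LieStable`). Then `V` is **semisimple**, the derived groups agree, and if `NoCM` holds the
   Mumford-Tate conjecture holds.

So for `H^2` (and, with the same proof, for every polarized cohomology group) equality of the two
groups up to the centres is decided by the classes in one tensor power, although there is no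
inclusion between them a priori. The known cases of the conjecture for `H^2` (K3 surfaces and other
varieties with `h^{2,0} = 1`, by the Kuga-Satake construction) and the hand-in `OddRankDensityOne` are about
the case of the full orthogonal group; here there is no condition on the groups or the Hodge numbers.
The hand-in `QuarticTensors` of the problem `MP_bbcdf5_ag` is about motivated classes, where one
inclusion is part of the structure.

Proof. Let `L` be the Lie algebra of the endomorphisms which kill all Tate tensors. Its trace form is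
nondegenerate. The orthogonal projection of `End V` to `L` commutes with `Γ` and the one to `𝔪` commutes
with `𝔪`; by hypothesis the first commutes with `𝔪` and the second with `L`, so `𝔪` and `L` normalize each
other. Therefore an element `X` of `𝔪` is the sum of an element of `L` and an endomorphism `Z` which commutes
with `L`. It commutes with an open subgroup of `Γ` (library), so with `𝔪` by hypothesis. The same is
true with `𝔪` and `L` exchanged, and it follows that the brackets are the same. `Z` is in the centre of
the commutant of `𝔪` (which is also the commutant of `L`), and it is skew; so `NoCM` gives `Z = 0`.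
-/

open Module

noncomputable section

namespace Pool.Agent.Results.MP_6369ef_ag.FourthTensorPower

open Pool.Agent.Y114.TF Pool.Agent.Y114.RM Pool.Agent.H204R3.GP Pool.Agent.R913.Adj

section defs

variable {k V Γ : Type} [Field k] [AddCommGroup V] [Module k V] [Group Γ]
  (ρ : Representation k Γ V) (𝔪 : Submodule k (End k V)) (ω : V →ₗ[k] V →ₗ[k] k)

/-- A form in four variables on `V` which is fixed by a subgroup of finite index of `Γ`. -/
def TateForm (φ : MultilinearMap k (fun _ : Fin 4 => V) k) : Prop :=
  ∃ Δ : Subgroup Γ, Δ.FiniteIndex ∧ ∀ s ∈ Δ, ∀ v, φ (fun l => ρ s (v l)) = φ v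

/-- A form in four variables on `V` which is killed by the elements `X` of `𝔪`: the sum of the forms
`φ (…, X v_l, …)` is zero. -/
def HodgeForm (φ : MultilinearMap k (fun _ : Fin 4 => V) k) : Prop :=
  ∀ X ∈ 𝔪, ∀ v, ∑ l, φ (Function.update v l (X (v l))) = 0

/-- The endomorphism `X` kills all Tate tensors, in all tensor spaces of `V` and its dual space. -/
def KillsTate (X : End k V) : Prop :=
  ∀ (m : ℕ) (φ : Tensor k V m), TateTensor ρ φ → KillsTensor X φ

/-- The properties of the Lie algebra of the Mumford-Tate group which are used. -/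
structure IsMumfordTateLie : Prop where
  bracket : ∀ X ∈ 𝔪, ∀ Y ∈ 𝔪, X * Y - Y * X ∈ 𝔪
  nondegenerate : ∀ X ∈ 𝔪, (∀ Y ∈ 𝔪, LinearMap.trace k V (X * Y) = 0) → X = 0
  semisimple : ∀ U : Submodule k V, (∀ X ∈ 𝔪, ∀ x ∈ U, X x ∈ U) →
    ∃ U' : Submodule k V, (∀ X ∈ 𝔪, ∀ x ∈ U', X x ∈ U') ∧ IsCompl U U'
  skew : ∀ X ∈ 𝔪, ∀ u v, ω (X u) v + ω u (X v) = 0

/-- `ω` is nondegenerate and invariant under `Γ`. -/
structure IsInvariantForm : Prop where
  nondegenerate : ∀ u, (∀ v, ω u v = 0) → u = 0
  invariant : ∀ s u v, ω (ρ s u) (ρ s v) = ω u v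

/-- An endomorphism `z` which commutes with `𝔪` and with all endomorphisms that commute with `𝔪`, and
which is skew for `ω`, is zero. -/
def NoSkewCentre : Prop :=
  ∀ z : End k V, (∀ X ∈ 𝔪, X * z = z * X) →
    (∀ P : End k V, (∀ X ∈ 𝔪, X * P = P * X) → z * P = P * z) →
    (∀ u v, ω (z u) v + ω u (z v) = 0) → z = 0

/-- Every Lie algebra of endomorphisms of `V` which is stable under the conjugations by the elements
of a subgroup of finite index of `Γ` is stable under the brackets with the elements of `𝔪`. -/
def StableLieAlgebras : Prop := ∀ U : Submodule k (End k V),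
  (∀ X ∈ U, ∀ Y ∈ U, X * Y - Y * X ∈ U) →
    (∃ Δ : Subgroup Γ, Δ.FiniteIndex ∧ ∀ γ ∈ Δ, ∀ Y ∈ U, ρ γ * Y * ρ γ⁻¹ ∈ U) →
      ∀ X ∈ 𝔪, ∀ Y ∈ U, X * Y - Y * X ∈ U

/-- The brackets of elements of `𝔪` are the brackets of endomorphisms which kill all Tate tensors. -/
def BracketsAgree : Prop := ∀ Z : End k V,
  (∃ X ∈ 𝔪, ∃ Y ∈ 𝔪, Z = X * Y - Y * X) ↔
    ∃ X Y : End k V, KillsTate ρ X ∧ KillsTate ρ Y ∧ Z = X * Y - Y * X

/-- `𝔪` is the set of the endomorphisms which kill all Tate tensors. -/
def LieAlgebrasAgree : Prop := ∀ X : End k V, X ∈ 𝔪 ↔ KillsTate ρ X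

end defs

section props

variable (Γ : Type) [Group Γ] {ι : Type} (n : ι → ℕ) (ℓ : ℕ) [Fact ℓ.Prime]

/-- Representations of `Γ` on the spaces `ℚ_ℓ ^ (n i)`. -/
abbrev Reps : Type := ∀ i, Representation ℚ_[ℓ] Γ (Fin (n i) → ℚ_[ℓ])

/-- Spaces of endomorphisms of the direct sum of the spaces `ℚ_ℓ ^ (n i)`. -/
abbrev EndSpace : Type := Submodule ℚ_[ℓ] (End ℚ_[ℓ] (∀ i, Fin (n i) → ℚ_[ℓ]))

/-- Bilinear forms on the direct sum of the spaces `ℚ_ℓ ^ (n i)`. -/
abbrev Form : Type := (∀ i, Fin (n i) → ℚ_[ℓ]) →ₗ[ℚ_[ℓ]] (∀ i, Fin (n i) → ℚ_[ℓ]) →ₗ[ℚ_[ℓ]] ℚ_[ℓ]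

variable {Γ n ℓ} (ρ : Reps Γ n ℓ) (𝔪 : EndSpace n ℓ)

/-- The representations are continuous. -/
def Conts [TopologicalSpace Γ] : Prop := ∀ i, Continuous fun g => LinearMap.toMatrix' (ρ i g)

variable [Fintype ι] [DecidableEq ι]

/-- `V` is semisimple as a representation of every subgroup of finite index. -/
def Semisimple : Prop := FiniteIndexSemisimple (sumRep ρ)

/-- The Hodge classes in the fourth tensor power are Tate classes. -/
def HodgeAreTate4 : Prop := ∀ φ, HodgeForm 𝔪 φ → TateForm (sumRep ρ) φ

/-- The Tate classes in the fourth tensor power are combinations of Hodge classes. -/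
def TateAreHodge4 : Prop := ∀ φ, TateForm (sumRep ρ) φ → HodgeForm 𝔪 φ

/-- The Mumford-Tate conjecture (see `LieAlgebrasAgree`). -/
def MumfordTate : Prop := LieAlgebrasAgree (sumRep ρ) 𝔪

/-- The semisimple parts agree (see `BracketsAgree`). -/
def SameBrackets : Prop := BracketsAgree (sumRep ρ) 𝔪

/-- See `StableLieAlgebras`. -/
def LieStable : Prop := StableLieAlgebras (sumRep ρ) 𝔪

end props

/-- **Theorem.** The Mumford-Tate conjecture for `H^2(X)` and the fourth tensor power of `H^2(X)`. -/
theorem result {Γ : Type} [Group Γ] [TopologicalSpace Γ] [IsTopologicalGroup Γ] [CompactSpace Γ]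
    {ι : Type} [Fintype ι] [DecidableEq ι] {n : ι → ℕ} {ℓ : ℕ} [Fact ℓ.Prime]
    (ρ : Reps Γ n ℓ) (hρ : Conts ρ) (𝔪 : EndSpace n ℓ) (ω : Form n ℓ)
    (hω : IsInvariantForm (sumRep ρ) ω) (h𝔪 : IsMumfordTateLie 𝔪 ω) (hHT : HodgeAreTate4 ρ 𝔪) :
    (Semisimple ρ → TateAreHodge4 ρ 𝔪 → SameBrackets ρ 𝔪) ∧
      (Semisimple ρ → NoSkewCentre 𝔪 ω → (MumfordTate ρ 𝔪 ↔ TateAreHodge4 ρ 𝔪)) ∧
      (LieStable ρ 𝔪 → Semisimple ρ ∧ SameBrackets ρ 𝔪 ∧
        (NoSkewCentre 𝔪 ω → MumfordTate ρ 𝔪)) := by
  have a1 := V5helper84.QT.hodgeTate_of_forms (ρ := sumRep ρ) (𝔪 := 𝔪) hω.nondegenerate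
    hω.invariant h𝔪.skew hHT
  have a2 := fun h : TateAreHodge4 ρ 𝔪 => V5helper84.QT.tateHodge_of_forms (ρ := sumRep ρ)
    (𝔪 := 𝔪) hω.nondegenerate hω.invariant h𝔪.skew h
  refine ⟨fun hss h => ?_, fun hss hcm => ⟨fun h => ?_, fun h => ?_⟩, fun h => ?_⟩
  · exact V5helper84.QT.brackets_of_mutual ρ hρ hss h𝔪.nondegenerate h𝔪.bracket a1
      (V5helper84.QT.endo_of_tateHodge (a2 h)) (V5helper84.QT.normal_of_tateHodge ρ hss (a2 h))
  · exact V5helper84.QT.forms_of_tate (ρ := sumRep ρ) (𝔪 := 𝔪) hω.nondegenerate hω.invariant
      h𝔪.skew fun m φ hφ X hX => (h X).1 hX m φ hφ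
  · exact V5helper84.QT.eq_of_mutual ρ hρ hss h𝔪.nondegenerate h𝔪.bracket a1
      (V5helper84.QT.endo_of_tateHodge (a2 h)) (V5helper84.QT.normal_of_tateHodge ρ hss (a2 h))
      hω.invariant h𝔪.skew hcm
  · have hss : Semisimple ρ := V5helper84.QT.semisimple_of_lie' ρ h𝔪.semisimple a1 h
    exact ⟨hss, V5helper84.QT.brackets_of_mutual ρ hρ hss h𝔪.nondegenerate h𝔪.bracket a1
      (V5helper84.QT.LieStable.endo h) (V5helper84.QT.normal_of_lie' ρ hss h), fun hcm =>
      V5helper84.QT.eq_of_mutual ρ hρ hss h𝔪.nondegenerate h𝔪.bracket a1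
        (V5helper84.QT.LieStable.endo h) (V5helper84.QT.normal_of_lie' ρ hss h)
        hω.invariant h𝔪.skew hcm⟩

end Pool.Agent.Results.MP_6369ef_ag.FourthTensorPower
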