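import Mathlib
import Pool.Agent.V5helper94.MT.Trans
import Pool.Agent.V5helper94.MT.Tr

/-!
# A zero-one law for the Mumford-Tate conjecture for `H^2`, and every prime `ℓ` over `ℚ`

Let `X` be a smooth projective variety over a field `k` which is finitely generated over `ℚ`, and
`H^2(X, ℚ)(1) = V ⊕ T_1 ⊕ ... ⊕ T_r`, where the `T_i` are pairwise non-isomorphic big polarised
Hodge structures without endomorphisms besides the rational scalars (`T.Big c p q`: the Hodge numbers
of `T_i` are `(p_i, q_i, p_i)`, and `p_i = 1` or `2 p_i^2 (p_i^2 + 1) < (q_i - 2 p_i) (q_i + p_i)`;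
`c a` says to which summand the `a`-th basis vector of `T = ⊕ T_i` belongs), of any ranks `5`, `7`, `8`,
`9`, ..., odd or even. For `V` there are two possibilities:

* `V` is the space of algebraic classes (type `(0,0)`, with a finite Galois action; then the
  Mumford-Tate conjecture for `V` is true); or
* `V` is any Hodge structure of abelian type (for example, in the tensor category generated by the
  `H^1` of abelian varieties), all `p_i` are at least `2`, and some Frobenius eigenvalue on each `T_i` is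
  multiplicatively independent of the eigenvalues on `V` (at places of two different residue
  characteristics).

`Γ` is the Galois group of `k` (or the fundamental group of a model), `K` a number field and
`s : G_K → Γ` the homomorphism given by a closed point of the generic fibre of a model of `X` (if `k`
is a number field, then `K = k` and `s` is the identity). At the places `v` of `K` of good reduction
(`v ∉ S`) the characteristic polynomial of the geometric Frobenius on `T_i(-1)` is a polynomial `R_i(v)`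
with integral coefficients which does not depend on `ℓ`, with roots of absolute value `N(v)`
(Deligne; for `r > 1` and for `V` not algebraic the Galois representations on the summands and these
properties are part of the data, they hold if the decomposition is given by algebraic
correspondences).

**Theorem.** Suppose that the Mumford-Tate conjecture holds for `V ⊕ T`, or only for the transcendental
part `T`, at ONE prime number `ℓ₀` (for the specialisation of `X` over `K`), where `ℓ₀` does not divide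
`rk T_i - 1` if `rk T_i` is odd, and `ℓ₀` does not divide `(rk T_i - 2) (rk T_i - 4)` and the `ℓ₀`-adic valuation
of the discriminant of `T_i` is even if `rk T_i` is even (these conditions exclude finitely many `ℓ₀`). Then

1. for 100 percent of the prime numbers `ℓ` the Mumford-Tate conjecture for `V ⊕ T` at `ℓ` is equivalent to
   the conjecture for `V` at `ℓ`; in particular, if `V` is algebraic, **the conjecture for `H^2(X)` is true at
   100 percent of the `ℓ`, or false at all `ℓ₀` outside an explicit finite set**;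
2. for every prime number `ℓ` such that the `T_i ⊗ ℚ_ℓ` are semisimple and the endomorphisms which commute
   with an open subgroup of `Γ` are scalars, the conjecture for `V ⊕ T` at `ℓ` is equivalent to
   the one for `V`;
3. if `K = ℚ`, then **at every prime number `ℓ`** all the representations `T_i ⊗ ℚ_ℓ` are semisimple, and the
   Mumford-Tate conjecture for `V ⊕ T` at `ℓ` is equivalent to the conjecture for `V` at `ℓ` and the statement
   that the endomorphisms of `T_i ⊗ ℚ_ℓ` which commute with an open subgroup of `Γ` are scalars (the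
   Tate conjecture for the endomorphisms of `T_i`).

It was known (Larsen, Pink, Serre) that the rank and the formal character of the monodromy group do
not depend on `ℓ`, and that for abelian varieties, where the Tate conjecture for endomorphisms and
semisimplicity are theorems, the Mumford-Tate conjecture at one `ℓ` implies the conjecture at all `ℓ`; the
step from one `ℓ` to other `ℓ` without assumptions on semisimplicity and on irreducibility is new. The starting results have density one theorems which start from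
conditions on Frobenius polynomials, for odd rank or one summand, and semisimplicity at every `ℓ`
from semisimplicity (with more) at one `ℓ`.

Idea of the proof. From the conjecture at `ℓ₀` the joint Lie algebra of the image on the `T_i ⊗ ℚ_{ℓ₀}` is
the product of the `so(T_i)`: the Zariski closure is big, and the Lie algebra of the image is
stable under it. So there are Frobenius elements close to arbitrary tangent vectors. With suitable
ramified and unramified elements of `so(T_i ⊗ ℚ_{ℓ₀})` one finds places whose Frobenius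
polynomials have large Galois groups, with splitting fields that are independent for different places
and different `i`; by Chebotarev, for 100 percent of the `ℓ` no subspace of `T_i ⊗ ℚ_ℓ` is stable under an
open subgroup, the Lie algebra of the image is `so(T_i)`, and by independent eigenvalues the
lemma of Goursat and Ribet gives the product (projects ZI, ZD, OP, PO of the starting library). For (3)
a Frobenius element close to a tangent vector without isotropic relations gives a place over one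
prime number `p` without isotropic relations between its eigenvalues, and the determinant of an
isotropic stable subspace would be such a relation (project SQ of the starting library; it is applied to
`T_i(-1)`, and the Lie algebra of the twist contains `so(T_i)` because this Lie algebra is perfect).
For the converse the isometries of determinant `1` commute with the endomorphisms.
-/

set_option autoImplicit false

namespace Pool.Agent.Results.MP_6369ef_ag.TransferFromOnePrime

open MvPolynomial Matrix Filter Topology NumberField IsDedekindDomain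
open Pool.Agent.W544.PG (HS BD)

noncomputable section

section groups

variable {ι : Type} [Fintype ι] [DecidableEq ι]

/-- The value of a rational polynomial in the entries at a matrix. -/
def value {R : Type} [CommRing R] [Algebra ℚ R] (g : Matrix ι ι R)
    (f : MvPolynomial (ι × ι) ℚ) : R :=
  aeval (fun q : ι × ι => g q.1 q.2) f

/-- `G` is the set of complex points of an algebraic subgroup over `ℚ` of the general linear
group. -/
def IsQGroup (G : Set (Matrix ι ι ℂ)) : Prop :=
  (∃ P : Set (MvPolynomial (ι × ι) ℚ), ∀ g, g ∈ G ↔ g.det ≠ 0 ∧ ∀ f ∈ P, value g f = 0) ∧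
  1 ∈ G ∧ (∀ a ∈ G, ∀ b ∈ G, a * b ∈ G) ∧ ∀ a ∈ G, a⁻¹ ∈ G

/-- The complex points of the Mumford-Tate group: the smallest algebraic subgroup over `ℚ` which
contains `h z` for all `z`. -/
def mumfordTate (h : ℂ → Matrix ι ι ℂ) : Set (Matrix ι ι ℂ) :=
  {g | ∀ G, IsQGroup G → (∀ z, z ≠ 0 → h z ∈ G) → g ∈ G}

/-- The points of the Mumford-Tate group over a field `R`. -/
def InMumfordTate {R : Type} [Field R] [Algebra ℚ R] (h : ℂ → Matrix ι ι ℂ)
    (g : Matrix ι ι R) : Prop :=
  ∀ f : MvPolynomial (ι × ι) ℚ, (∀ m ∈ mumfordTate h, value m f = 0) → value g f = 0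

/-- The Lie algebra of the Mumford-Tate group (over the complex numbers): the tangent space at
`1`. -/
def lieMumfordTate (h : ℂ → Matrix ι ι ℂ) : Set (Matrix ι ι ℂ) :=
  {y | ∀ f : MvPolynomial (ι × ι) ℚ, (∀ m ∈ mumfordTate h, value m f = 0) →
    ∑ x : ι × ι, y x.1 x.2 * value (1 : Matrix ι ι ℂ) (pderiv x f) = 0}

variable {ℓ : ℕ} [Fact ℓ.Prime] {Γ : Type} [Group Γ]

/-- The points of the identity component of the Zariski closure of `ρ(Γ)` over the algebraic
closure of `ℚ_ℓ`: a polynomial that vanishes on the image of a subgroup of finite index vanishes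
at `g`. -/
def InMonodromy (ρ : Γ →* Matrix ι ι ℚ_[ℓ]) (g : Matrix ι ι (AlgebraicClosure ℚ_[ℓ])) : Prop :=
  ∀ f : MvPolynomial (ι × ι) (AlgebraicClosure ℚ_[ℓ]),
    (∃ Δ : Subgroup Γ, Δ.FiniteIndex ∧ ∀ s ∈ Δ,
      aeval (fun q : ι × ι => algebraMap ℚ_[ℓ] (AlgebraicClosure ℚ_[ℓ]) (ρ s q.1 q.2)) f = 0) →
    aeval (fun q : ι × ι => g q.1 q.2) f = 0

/-- The Mumford-Tate conjecture: the two groups agree over `ℚ_ℓ`. -/
def MumfordTateConjecture (h : ℂ → Matrix ι ι ℂ) (ρ : Γ →* Matrix ι ι ℚ_[ℓ]) : Prop :=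
  ∀ g : Matrix ι ι (AlgebraicClosure ℚ_[ℓ]), g.det ≠ 0 → (InMonodromy ρ g ↔ InMumfordTate h g)

end groups

variable {κ : Type} [Fintype κ] [DecidableEq κ] {n r : ℕ}

/-- A rational Hodge structure on `ℚ^κ`: the projections `e (a, b)` to the pieces of type `(a, b)`
of `ℂ^κ`; they are exchanged by complex conjugation, and the pieces of every weight are defined
over `ℚ`. -/
structure RationalHodgeStructure (κ : Type) [Fintype κ] [DecidableEq κ] where
  /-- the types which occur -/
  types : Finset (ℤ × ℤ)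
  /-- the projections -/
  e : ℤ × ℤ → Matrix κ κ ℂ
  mul : ∀ a ∈ types, ∀ b ∈ types, e a * e b = if a = b then e a else 0
  sum : ∑ a ∈ types, e a = 1
  conj : ∀ a ∈ types, a.swap ∈ types ∧ (e a).map (starRingEnd ℂ) = e a.swap
  weight : ∀ w : ℤ, ∃ P : Matrix κ κ ℚ,
    ∑ a ∈ types with a.1 + a.2 = w, e a = P.map (algebraMap ℚ ℂ)

/-- The action of `ℂ^×`: multiplication by `z ^ (-a) * conj z ^ (-b)` on the piece of type
`(a, b)`. -/
def RationalHodgeStructure.h (V : RationalHodgeStructure κ) (z : ℂ) : Matrix κ κ ℂ :=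
  ∑ a ∈ V.types, (z ^ (-a.1) * starRingEnd ℂ z ^ (-a.2)) • V.e a

/-- The operator which is `a - b` on the piece of type `(a, b)`. -/
def RationalHodgeStructure.X (V : RationalHodgeStructure κ) : Matrix κ κ ℂ :=
  ∑ a ∈ V.types, ((a.1 - a.2 : ℤ) : ℂ) • V.e a

/-- The Lie algebra of the Mumford-Tate group of `V` has only the Hodge types `(-1,1)`, `(0,0)`,
`(1,-1)`: the eigenvalues of the commutator with `V.X` on it are `-2`, `0`, `2`. -/
def RationalHodgeStructure.AbelianType (V : RationalHodgeStructure κ) : Prop :=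
  ∀ y ∈ lieMumfordTate V.h, ⁅V.X, ⁅V.X, ⁅V.X, y⁆⁆⁆ = (4 : ℂ) • ⁅V.X, y⁆

/-- The action of `ℂ^×` on `T`: multiplication by `conj z / z`, `1`, `z / conj z` on the parts where
`T.x` is `1`, `0`, `-1`. -/
def hodgeT (T : HS n) (z : ℂ) : Matrix (Fin n) (Fin n) ℂ :=
  1 + ((starRingEnd ℂ z / z - 1) / 2) • (T.x * T.x + T.x) +
    ((z / starRingEnd ℂ z - 1) / 2) • (T.x * T.x - T.x)

/-- The action of `ℂ^×` on `V ⊕ T`. -/
def hodge (V : RationalHodgeStructure κ) (T : HS n) (z : ℂ) :
    Matrix (κ ⊕ Fin n) (κ ⊕ Fin n) ℂ :=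
  fromBlocks (V.h z) 0 0 (hodgeT T z)

section galois

variable {ℓ : ℕ} [Fact ℓ.Prime] {Γ : Type} [Group Γ]

/-- An `ℓ`-adic integral matrix as a matrix over `ℚ_ℓ`. -/
def rat (g : Matrix (Fin n) (Fin n) ℤ_[ℓ]) : Matrix (Fin n) (Fin n) ℚ_[ℓ] :=
  g.map (algebraMap ℤ_[ℓ] ℚ_[ℓ])

/-- The representation `α ⊕ β` of the Galois group on `V ⊕ T`. -/
def galois (α : Γ →* Matrix κ κ ℚ_[ℓ]) (β : Γ →* Matrix (Fin n) (Fin n) ℤ_[ℓ]) :
    Γ →* Matrix (κ ⊕ Fin n) (κ ⊕ Fin n) ℚ_[ℓ] where
  toFun σ := fromBlocks (α σ) 0 0 (rat (β σ))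
  map_one' := (Pool.Agent.Y95.MT.tot α β).map_one
  map_mul' := (Pool.Agent.Y95.MT.tot α β).map_mul

/-- The matrix of `σ` on `T_i ⊗ ℚ_ℓ`. -/
def block (c : Fin n → Fin r) (β : Γ →* Matrix (Fin n) (Fin n) ℤ_[ℓ]) (i : Fin r) (σ : Γ) :
    Matrix {a // c a = i} {a // c a = i} ℚ_[ℓ] :=
  Matrix.of fun a b => rat (β σ) a b

/-- The representation `T_i ⊗ ℚ_ℓ` is semisimple: every stable subspace has a stable complement. -/
def IsSemisimple (c : Fin n → Fin r) (β : Γ →* Matrix (Fin n) (Fin n) ℤ_[ℓ]) (i : Fin r) : Prop :=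
  ∀ W : Submodule ℚ_[ℓ] ({a // c a = i} → ℚ_[ℓ]), (∀ σ, ∀ w ∈ W, block c β i σ *ᵥ w ∈ W) →
    ∃ W' : Submodule ℚ_[ℓ] ({a // c a = i} → ℚ_[ℓ]), IsCompl W W' ∧
      ∀ σ, ∀ w ∈ W', block c β i σ *ᵥ w ∈ W'

/-- The endomorphisms of `T_i ⊗ ℚ_ℓ` which commute with an open subgroup of `Γ` are the scalars. -/
def OnlyScalarEndomorphisms [TopologicalSpace Γ] (c : Fin n → Fin r)
    (β : Γ →* Matrix (Fin n) (Fin n) ℤ_[ℓ]) (i : Fin r) : Prop :=
  ∀ (A : Matrix {a // c a = i} {a // c a = i} ℚ_[ℓ]) (U : Subgroup Γ), IsOpen (U : Set Γ) →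
    (∀ σ ∈ U, A * block c β i σ = block c β i σ * A) →
    ∃ z : ℚ_[ℓ], A = z • (1 : Matrix {a // c a = i} {a // c a = i} ℚ_[ℓ])

end galois

/-- the absolute Galois group of `K`, with its profinite (Krull) topology -/
abbrev AbsoluteGaloisGroup (K : Type) [Field K] : Type := Gal(AlgebraicClosure K/K)

section places

variable {K : Type} [Field K] [NumberField K]

/-- `σ` is an (arithmetic) Frobenius element at the prime `v` of the number field `K`: for some prime
`Q` of the algebraic closure above `v` it acts on the residue field as `x ↦ x ^ N(v)` -/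
def IsFrobenius (v : HeightOneSpectrum (𝓞 K)) (σ : AbsoluteGaloisGroup K) : Prop :=
  ∃ Q : Ideal (𝓞 (AlgebraicClosure K)), Q.IsMaximal ∧
    Q.comap (algebraMap (𝓞 K) (𝓞 (AlgebraicClosure K))) = v.asIdeal ∧
    ∀ x : 𝓞 (AlgebraicClosure K), σ • x - x ^ Ideal.absNorm v.asIdeal ∈ Q

/-- The Frobenius polynomials of the `T_i(-1)` outside the finite set `S`: monic, with integral
coefficients and with complex roots of absolute value `N(v)`. -/
def ArePure (S : Set (HeightOneSpectrum (𝓞 K)))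
    (R : Fin r → HeightOneSpectrum (𝓞 K) → Polynomial ℤ) : Prop :=
  S.Finite ∧ ∀ i, ∀ v ∉ S, (R i v).Monic ∧
    ∀ z : ℂ, Polynomial.aeval z (R i v) = 0 → ‖z‖ = (Ideal.absNorm v.asIdeal : ℝ)

/-- `α` and `β` are the representations on `V ⊗ ℚ_ℓ` and on `T ⊗ ℤ_ℓ`: both are continuous, `β` preserves
the form and the decomposition of `T`, and for all `v ∉ S` which are prime to `ℓ` the characteristic
polynomials of (the image under `s` of) the geometric Frobenius elements `σ⁻¹` (`σ` arithmetic) at `v`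
on `T_i(-1)` (that is, of `N(v)` times the matrix on `T_i`) and on `V` are `R i v` and `E v`. -/
structure IsSystem {Γ : Type} [Group Γ] [TopologicalSpace Γ] (s : AbsoluteGaloisGroup K →* Γ)
    (T : HS n) (c : Fin n → Fin r) (S : Set (HeightOneSpectrum (𝓞 K)))
    (R : Fin r → HeightOneSpectrum (𝓞 K) → Polynomial ℤ)
    (E : HeightOneSpectrum (𝓞 K) → Polynomial ℚ) (ℓ : ℕ) [Fact ℓ.Prime]
    (α : Γ →* Matrix κ κ ℚ_[ℓ]) (β : Γ →* Matrix (Fin n) (Fin n) ℤ_[ℓ]) : Prop where
  continuous_α : Continuous α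
  continuous_β : Continuous β
  form : ∀ σ, (rat (β σ))ᵀ * T.Q.map (algebraMap ℚ ℚ_[ℓ]) * rat (β σ) =
    T.Q.map (algebraMap ℚ ℚ_[ℓ])
  blocks : ∀ σ, BD c (β σ)
  frobenius : ∀ v ∉ S, (ℓ : 𝓞 K) ∉ v.asIdeal → ∀ σ : AbsoluteGaloisGroup K, IsFrobenius v σ →
    (∀ i, ((Ideal.absNorm v.asIdeal : ℚ_[ℓ]) • block c β i (s σ⁻¹)).charpoly =
      (R i v).map (algebraMap ℤ ℚ_[ℓ])) ∧
    (α (s σ⁻¹)).charpoly = (E v).map (algebraMap ℚ ℚ_[ℓ])

/-- Some root of `R`, divided by `q`, has no positive power in the multiplicative group generated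
by the roots of `E`. -/
def HasIndependentRoot (R : Polynomial ℤ) (q : ℕ) (E : Polynomial ℚ) : Prop :=
  ∃ x : ℂˣ, Polynomial.aeval ((q : ℂ) * x) R = 0 ∧
    ∀ m : ℕ, 0 < m → x ^ m ∉ Subgroup.closure {y : ℂˣ | Polynomial.aeval (y : ℂ) E = 0}

end places

/-- The representation `β` over `ℚ_ℓ`. -/
def galoisT {ℓ : ℕ} [Fact ℓ.Prime] {Γ : Type} [Group Γ] (β : Γ →* Matrix (Fin n) (Fin n) ℤ_[ℓ]) :
    Γ →* Matrix (Fin n) (Fin n) ℚ_[ℓ] where
  toFun σ := rat (β σ)
  map_one' := (Pool.Agent.R932.qrep β).map_one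
  map_mul' := (Pool.Agent.R932.qrep β).map_mul

/-- `V` consists of classes of type `(0,0)`, and the Galois group acts through finite groups. -/
def IsAlgebraic (V : RationalHodgeStructure κ) {Γ : Type} [Group Γ]
    (α : ∀ (ℓ : ℕ) [Fact ℓ.Prime], Γ →* Matrix κ κ ℚ_[ℓ]) : Prop :=
  V.types = {(0, 0)} ∧ ∀ (ℓ : ℕ) [Fact ℓ.Prime], (Set.range (α ℓ)).Finite

/-- The prime number `ℓ` is suitable for `T_i`: it does not divide `rk T_i - 1` if the rank is odd; it
does not divide `(rk T_i - 2) (rk T_i - 4)`, and the valuation of the discriminant is even, if the rank is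
even. -/
def IsSuitable (T : HS n) (c : Fin n → Fin r) (p q : Fin r → ℕ) (ℓ : ℕ) (i : Fin r) : Prop :=
  (Odd (2 * p i + q i) → ¬ ℓ ∣ 2 * p i + q i - 1) ∧
  (Even (2 * p i + q i) → ¬ ℓ ∣ (2 * p i + q i - 2) * (2 * p i + q i - 4) ∧
    Even (padicValRat ℓ (T.Q.toSquareBlock c i).det))

/-- the set `A` of prime numbers has natural density zero -/
def HasDensityZero (A : Set ℕ) : Prop :=
  Tendsto (fun n : ℕ => (Nat.card {ℓ : ℕ // ℓ ≤ n ∧ ℓ ∈ A} : ℝ) / (Nat.primeCounting n : ℝ))
    atTop (𝓝 0)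

/-- **The Mumford-Tate conjecture for `H^2 = V ⊕ T`: transfer from one prime `ℓ₀` to 100 percent of the
primes, and, over `ℚ`, the equivalence with the statement on endomorphisms at every prime.** -/
theorem result (T : HS n) (c : Fin n → Fin r) (p q : Fin r → ℕ) (hT : T.Big c p q)
    (hrk : ∀ i, 5 ≤ 2 * p i + q i ∧ 2 * p i + q i ≠ 6)
    -- the representations
    (K : Type) [Field K] [NumberField K] (Γ : Type) [Group Γ] [TopologicalSpace Γ]
    [IsTopologicalGroup Γ] [CompactSpace Γ] (s : AbsoluteGaloisGroup K →* Γ) (hs : Continuous s)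
    (S : Set (HeightOneSpectrum (𝓞 K))) (R : Fin r → HeightOneSpectrum (𝓞 K) → Polynomial ℤ)
    (hR : ArePure S R) (E : HeightOneSpectrum (𝓞 K) → Polynomial ℚ)
    (V : RationalHodgeStructure κ)
    (α : ∀ (ℓ : ℕ) [Fact ℓ.Prime], Γ →* Matrix κ κ ℚ_[ℓ])
    (β : ∀ (ℓ : ℕ) [Fact ℓ.Prime], Γ →* Matrix (Fin n) (Fin n) ℤ_[ℓ])
    (hsys : ∀ (ℓ : ℕ) [Fact ℓ.Prime], IsSystem s T c S R E ℓ (α ℓ) (β ℓ))
    -- the Hodge structure `V`
    (hV : IsAlgebraic V α ∨ (V.AbelianType ∧ (∀ i, 2 ≤ p i) ∧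
      ∀ (ℓ : ℕ) [Fact ℓ.Prime], ∀ i, ∃ v ∉ S, (ℓ : 𝓞 K) ∉ v.asIdeal ∧
        HasIndependentRoot (R i v) (Ideal.absNorm v.asIdeal) (E v)))
    -- the prime number `ℓ₀`
    (ℓ₀ : ℕ) [Fact ℓ₀.Prime] (hsuit : ∀ i, IsSuitable T c p q ℓ₀ i)
    (hone : MumfordTateConjecture (hodge V T) (galois ((α ℓ₀).comp s) ((β ℓ₀).comp s)) ∨
      MumfordTateConjecture (hodgeT T) (galoisT ((β ℓ₀).comp s))) :
    (IsAlgebraic V α → ∀ (ℓ : ℕ) [Fact ℓ.Prime], MumfordTateConjecture V.h (α ℓ)) ∧
    HasDensityZero {ℓ | ∃ _ : Fact ℓ.Prime,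
      ¬ (MumfordTateConjecture (hodge V T) (galois (α ℓ) (β ℓ)) ↔
        MumfordTateConjecture V.h (α ℓ))} ∧
    (∀ (ℓ : ℕ) [Fact ℓ.Prime],
      (∀ i, IsSemisimple c (β ℓ) i ∧ OnlyScalarEndomorphisms c (β ℓ) i) →
      (MumfordTateConjecture (hodge V T) (galois (α ℓ) (β ℓ)) ↔
        MumfordTateConjecture V.h (α ℓ))) ∧
    (Module.finrank ℚ K = 1 → ∀ (ℓ : ℕ) [Fact ℓ.Prime],
      (∀ i, IsSemisimple c (β ℓ) i) ∧
      (MumfordTateConjecture (hodge V T) (galois (α ℓ) (β ℓ)) ↔
        MumfordTateConjecture V.h (α ℓ) ∧ ∀ i, OnlyScalarEndomorphisms c (β ℓ) i)) := by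
  have hg : ∀ (ℓ : ℕ) [Fact ℓ.Prime], Pool.Agent.Y95.MT.GalT c T.Q (β ℓ) := fun ℓ _ =>
    ⟨(hsys ℓ).form, (hsys ℓ).blocks⟩
  have hblk : ∀ (ℓ : ℕ) [Fact ℓ.Prime], ∀ i σ,
      Pool.Agent.V5helper94.MT.blk (hg ℓ).bd i σ =
      (block c (β ℓ) i σ).submatrix (Pool.Agent.V5helper94.MT.eb c i)
        (Pool.Agent.V5helper94.MT.eb c i) := fun ℓ _ i σ => rfl
  have hF : ∀ (ℓ : ℕ) [Fact ℓ.Prime], Pool.Agent.V5helper94.MT.Frob s S R (hg ℓ).bd := by
    intro ℓ _ i w hw hwℓ σ hσ
    rw [← ((hsys ℓ).frobenius w hw hwℓ σ hσ).1 i, hblk]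
    exact Matrix.charpoly_reindex (Pool.Agent.V5helper94.MT.eb c i).symm
      ((Ideal.absNorm w.asIdeal : ℚ_[ℓ]) • block c (β ℓ) i (s σ⁻¹))
  have hN : ∀ i, Pool.Agent.V5helper94.MT.Nb c i = 2 * p i + q i := fun i =>
    Pool.Agent.V5helper94.MT.Nb_eq hT i
  have hN5 : ∀ i, 5 ≤ Pool.Agent.V5helper94.MT.Nb c i := fun i => by
    rw [hN]
    exact (hrk i).1
  have hVh : IsAlgebraic V α → V.h = fun _ => (1 : Matrix κ κ ℂ) := by
    intro hVa
    funext z
    have h1 := V.sum
    rw [hVa.1, Finset.sum_singleton] at h1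
    unfold RationalHodgeStructure.h
    rw [hVa.1, Finset.sum_singleton, h1]
    simp
  have hVN : IsAlgebraic V α → ∀ (ℓ : ℕ) [Fact ℓ.Prime], MumfordTateConjecture V.h (α ℓ) := by
    intro hVa ℓ _
    rw [hVh hVa]
    exact Pool.Agent.Y95.MT.MTC_N (hVa.2 ℓ)
  have hhM : hodge V T = Pool.Agent.Y95.MT.hM V.h T := rfl
  -- the sum at a prime
  have hsum : ∀ (ℓ : ℕ) [Fact ℓ.Prime],
      MumfordTateConjecture (hodge V T) (galois (α ℓ) (β ℓ)) ↔
      MumfordTateConjecture V.h (α ℓ) ∧
        Pool.Agent.V5helper94.MT.JT c T ℓ (hg ℓ).bd := by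
    intro ℓ _
    have hJ := Pool.Agent.V5helper94.MT.JT_iff hT (hsys ℓ).continuous_β (hg ℓ) hN5
    rcases hV with hVa | ⟨hVa, hp2, hind⟩
    · rw [hhM, hVh hVa]
      constructor
      · intro h
        refine ⟨Pool.Agent.Y95.MT.MTC_N (hVa.2 ℓ), hJ.1 ?_⟩
        exact Pool.Agent.V5helper94.MT.mtcT_of_mtcN hT (hg ℓ) h
      · rintro ⟨-, h⟩
        exact Pool.Agent.V5helper94.MT.mtcN_of_joint hT (hsys ℓ).continuous_α (hVa.2 ℓ)
          (hsys ℓ).continuous_β (hg ℓ) (hg ℓ).bd h
    · rw [← hJ]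
      exact Pool.Agent.R932.main_ind (T := T) (c := c) (p := p) (q := q) (v := α ℓ)
        (β := β ℓ) hT hp2 ⟨V.types, V.e, V.mul, V.sum, V.conj, V.weight⟩ hVa (hg ℓ) (fun i => by
          obtain ⟨v, hv, hvℓ, x, hx, hm⟩ := hind ℓ i
          obtain ⟨σ, hσ⟩ := Pool.Agent.W401.Frob.exists_frob v
          refine ⟨s σ⁻¹, Pool.Agent.V5helper94.MT.ind_block (hg ℓ).bd i _ ?_⟩
          have hpos := Pool.Agent.V5helper94.MT.norm_pos v
          exact Pool.Agent.R932.ind_of_complex
            ((Pool.Agent.V5helper94.MT.tw_root_iff hpos (hR.2 i v hv).1).2 hx) hm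
            ((hsys ℓ).frobenius v hv hvℓ σ hσ).2
            (Pool.Agent.V5helper94.MT.charpoly_tw hpos (hR.2 i v hv).1 (hF ℓ i v hv hvℓ σ hσ)))
  -- the conjecture for `T` at `ℓ₀`
  have hg₀ : Pool.Agent.Y95.MT.GalT c T.Q ((β ℓ₀).comp s) :=
    ⟨fun σ => (hg ℓ₀).form (s σ), fun σ => (hg ℓ₀).bd (s σ)⟩
  have hone' : Pool.Agent.Y95.MT.MTC (Pool.Agent.Y95.MT.hT T)
      (Pool.Agent.R932.qrep ((β ℓ₀).comp s)) := by
    rcases hone with h | h
    · rcases hV with hVa | ⟨hVa, hp2, -⟩
      · rw [hhM, hVh hVa] at h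
        exact Pool.Agent.V5helper94.MT.mtcT_of_mtcN hT hg₀ h
      · exact Pool.Agent.V5helper94.MT.mtcT_of_sum
          (hV := (⟨V.types, V.e, V.mul, V.sum, V.conj, V.weight⟩ :
            Pool.Agent.Y95.MT.RHS κ).h) hT
          (Pool.Agent.Y95.MT.RHS.h_det ⟨V.types, V.e, V.mul, V.sum, V.conj, V.weight⟩)
          (Pool.Agent.R932.hx_V hT hp2 ⟨V.types, V.e, V.mul, V.sum, V.conj, V.weight⟩ hVa) hg₀ h
    · exact h
  obtain ⟨h1, h2, h3⟩ := Pool.Agent.V5helper94.MT.transfer hT
    (fun i => by rw [hN]; exact hrk i) hs hR.1 hR.2 β (fun ℓ _ => (hsys ℓ).continuous_β)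
    (fun ℓ _ => hg ℓ) (fun ℓ _ => hF ℓ) ℓ₀ (fun i => by
      refine ⟨fun ho => ?_, fun he => ?_⟩
      · rw [hN] at ho ⊢
        exact (hsuit i).1 ho
      · have he' := he
        rw [hN] at he'
        refine ⟨by rw [hN]; exact ((hsuit i).2 he').1, ?_⟩
        have h4 := ((hsuit i).2 he').2
        have h5 : (Pool.Agent.V5helper94.MT.sb c i (Pool.Agent.V5helper94.MT.Ql ℓ₀ T)).det =
            (((T.Q.toSquareBlock c i).det : ℚ) : ℚ_[ℓ₀]) := by
          have h6 : Pool.Agent.V5helper94.MT.sb c i (Pool.Agent.V5helper94.MT.Ql ℓ₀ T) =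
              ((T.Q.toSquareBlock c i).submatrix (Pool.Agent.V5helper94.MT.eb c i)
                (Pool.Agent.V5helper94.MT.eb c i)).map (algebraMap ℚ ℚ_[ℓ₀]) := rfl
          rw [h6, ← RingHom.mapMatrix_apply, ← RingHom.map_det, Matrix.det_submatrix_equiv_self]
          rfl
        rw [h5, Padic.valuation_ratCast]
        exact h4) hone'
  have hsc : ∀ (ℓ : ℕ) [Fact ℓ.Prime], (∀ i, OnlyScalarEndomorphisms c (β ℓ) i) ↔
      ∀ i, Pool.Agent.R932.EV.SC (Pool.Agent.V5helper94.MT.blk (hg ℓ).bd i) := by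
    intro ℓ _
    refine forall_congr' fun i => ?_
    exact (Pool.Agent.V5helper94.MT.sc_tr (Pool.Agent.V5helper94.MT.eb c i) (hblk ℓ i)).symm
  refine ⟨hVN, ?_, ?_, ?_⟩
  · refine Pool.Agent.Y142.ZI.DensityZero.mono h1 ?_
    rintro ℓ ⟨hp, hno⟩
    refine ⟨hp, fun h => hno ?_⟩
    rw [hsum ℓ]
    exact ⟨fun h' => h'.1, fun h' => ⟨h', h⟩⟩
  · intro ℓ _ hss
    have h : Pool.Agent.V5helper94.MT.JT c T ℓ (hg ℓ).bd := by
      refine h2 ℓ (fun i => ?_) ((hsc ℓ).1 fun i => (hss i).2)
      exact Pool.Agent.V5helper94.MT.ss_rt (Pool.Agent.V5helper94.MT.eb c i) (hblk ℓ i)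
        (hss i).1
    rw [hsum ℓ]
    exact ⟨fun h' => h'.1, fun h' => ⟨h', h⟩⟩
  · intro hK ℓ _
    refine ⟨fun i => ?_, ?_⟩
    · exact Pool.Agent.V5helper94.MT.ss_tr (Pool.Agent.V5helper94.MT.eb c i) (hblk ℓ i)
        (h3 hK ℓ i)
    · rw [hsum ℓ, hsc ℓ]
      constructor
      · rintro ⟨h4, h5⟩
        refine ⟨h4, fun i => ?_⟩
        have h6 := (Pool.Agent.V5helper94.MT.JT_iff hT (hsys ℓ).continuous_β (hg ℓ) hN5).2 h5
        exact Pool.Agent.V5helper94.MT.sc_of_mtc hT (hg ℓ) (hg ℓ).bd h6 i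
          (by have := hN5 i; omega)
      · rintro ⟨h4, h5⟩
        exact ⟨h4, h2 ℓ (h3 hK ℓ) h5⟩

end

end Pool.Agent.Results.MP_6369ef_ag.TransferFromOnePrime
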