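import Pool.Agent.V5helper94.TM.Main

/-!
# The Mumford-Tate conjecture for the second cohomology and trilinear forms

Let `K` be an algebraic closure of a finitely generated field of characteristic zero, with an embedding
in `ℂ`, and let `k` be any subfield of `K` over which `K` is algebraic (for instance the finitely
generated field itself; `k = ℚ` if `K` is the field of algebraic numbers). The Mumford-Tate conjecture for
the second cohomology of a smooth projective variety (Q1) depends only on the variety over `K`.

For a scheme `X` over `k` the graded pieces `Gr^W_w H^n_c(X_K)` of the cohomology with compact support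
are motives over `K`. The conjecture for a motive `M` is used in the following form
(`Motives.MumfordTate`, equivalent by Tannakian duality to the equality of the Mumford-Tate group and
the identity component of the `ℓ`-adic monodromy group): the `ℓ`-adic realizations of the motives in
the tensor category generated by `M` and the Tate motives are semisimple, and their Tate classes are
the linear combinations of the Hodge classes. `MumfordTateFor 𝒳` is the conjecture for all finite
direct sums of the motives `Gr^W_w H^n_c(X_K)` for the schemes `X` in the class `𝒳`. (In general the
conjecture does not pass from two motives to their direct sum by known methods.)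

**Theorem.** The following statements are equivalent:

* the Mumford-Tate conjecture for `H^2(X)`, for all smooth projective varieties `X` over `K`;
* the same for all smooth projective surfaces;
* the conjecture for all finite direct sums of Tate twists of `H^1(X)` and `H^2(X)`, for all smooth
  projective varieties `X` over `K`; in particular for all abelian varieties;
* the conjecture for all finite direct sums of the motives `Gr^W_w H^n_c(X_K)`, for all separated
  schemes `X` of finite type and of dimension at most two over `k`;
* the same for the cubic hypersurfaces `X : S(x, y, z) = 1`, where `S` is a trilinear form over `k` and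
  one of the three blocks of variables has at most four variables.

For these schemes and hypersurfaces `Gr^W_(2v) H^n_c(X_K)` is a direct summand of `H^2(Y)(1-v)` for a
smooth projective surface `Y`, and `Gr^W_(2v+1) H^n_c(X_K)` is a direct summand of `H^1(A)(-v)` for an
abelian variety `A`. Conversely, `H^1(X)` and `H^2(X)`, for any smooth projective variety `X` over
`K`, are direct summands of finite direct sums of Tate twists of such motives
`Gr^W_w H^n_c(Y_K)`, `Y : S(x, y, z) = 1`. If `K` is the field of algebraic numbers, the conjecture for
the cubic hypersurfaces with rational coefficients implies, by specialization, the conjecture for the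
second cohomology over all fields.

Idea of the proof. If the conjecture holds for all `H^2(X)`, then it holds for all motives of even
weight in the tensor category generated by them, since `H^2(X) ⊕ H^2(Y)` and `H^1(X) ⊗ H^1(Y)` are
direct summands of `H^2(X × Y)`. The motives of odd weight are direct summands of `E ⊗ H^1(X)`, `E`
of this kind; they have no Tate classes, and the realization of `E ⊗ H^1(X)` is semisimple because
this is true after tensoring with `H^1(X)` (partial traces). The weak Lefschetz theorem gives the
reduction to surfaces. The category of motives is semisimple, so that in the localization sequences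
the property to have graded pieces of this type passes from two of the three schemes to the third;
this is combined with the theorem of Hironaka and with the geometric theorems on trilinear forms:
the hypersurface `S(x, y, z) = 1` is an affine bundle over the complement of `S(x, y, ·) = 0`, and every
affine scheme of dimension at most two is obtained from such schemes.
-/

set_option autoImplicit false

open CategoryTheory CategoryTheory.Limits AlgebraicGeometry MonoidalCategory
  Pool.Agent.Y116.UV Pool.Agent.V5helper77.GW Pool.Agent.V5helper94.TM

namespace Pool.Agent.Results.MP_6369ef_ag.TrilinearForms

section defs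

variable {k K : Type} [Field k] [Field K] {ℓ : ℕ} [Fact ℓ.Prime] (T : Motives k K ℓ)

/-- The Mumford-Tate conjecture for `H^2(X)`, for all smooth projective varieties `X` over `K`. -/
def SecondCohomology : Prop := ∀ X, IsSmProj X → T.MumfordTate (T.H 2 X)

/-- The Mumford-Tate conjecture for `H^2(X)`, for all smooth projective surfaces `X` over `K`. -/
def Surfaces : Prop := ∀ X, SmProjUpTo 2 X → T.MumfordTate (T.H 2 X)

/-- The Mumford-Tate conjecture for all finite direct sums of Tate twists of `H^1(X)` and
`H^2(X)`, for all smooth projective varieties `X` over `K`. -/
def DirectSums : Prop := ∀ M, Sums T.LowDegree M → T.MumfordTate M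

/-- `Gr^W_(2v) H^n_c(X_K)` is a direct summand of `H^2(Y)(1-v)`, `Y` a smooth projective surface, and
`Gr^W_(2v+1) H^n_c(X_K)` is a direct summand of `H^1(A)(-v)`, `A` an abelian variety. -/
def HasLowPieces (X : Sch k) : Prop := ∀ v n : ℤ,
  (∃ Y, SmProjUpTo 2 Y ∧ Summand (T.V (2 * v) n X) (T.tw (v - 1) (T.H 2 Y))) ∧
    ∃ A, IsAbVar A ∧ Summand (T.V (2 * v + 1) n X) (T.tw v (T.H 1 A))

/-- `M` is a direct summand of a finite direct sum of Tate twists of motives `Gr^W_w H^n_c(Y_K)`, for
cubic hypersurfaces `Y : S(x, y, z) = 1`, `S` a trilinear form over `k` with a block of at most four
variables (and for the point). -/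
def FromCubics (M : T.C) : Prop := ∃ N, Sums (T.Twists (CubicsUpTo 4)) N ∧ Summand M N

end defs

/-- **The Mumford-Tate conjecture for the second cohomology and trilinear forms.** Let `T` be a theory
of motives over the algebraically closed field `K` with the properties `IsTheory`. The following are
equivalent: the Mumford-Tate conjecture for `H^2(X)` for all smooth projective varieties `X` over `K`;
(1) for all surfaces; (2) for all finite direct sums of Tate twists of `H^1(X)` and `H^2(X)`; (3) for all
finite direct sums of `Gr^W_w H^n_c(X_K)`, `X` over `k` of dimension at most two; (4) for all finite direct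
sums of `Gr^W_w H^n_c(X_K)`, `X : S(x, y, z) = 1`, `S` a trilinear form over `k` with a block of at most four
variables. (5) The motives in (3) and (4) of the weights `2 v` and `2 v + 1` are direct summands of
`H^2(Y)(1-v)`, `Y` a surface, and of `H^1(A)(-v)`, `A` an abelian variety. (6) For all `X` over `K` and
`i ≤ 2`, `H^i(X)` is a direct summand of a finite direct sum of Tate twists of the motives in (4).
(7) The conjecture for (4) implies the conjecture for the second cohomology over all fields `K'` whose
varieties have specializations over `K`. -/
theorem result {k K : Type} [Field k] [Field K] [CharZero k] [CharZero K] [IsAlgClosed K]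
    {ℓ : ℕ} [Fact ℓ.Prime] (T : Motives k K ℓ) (hT : IsTheory T) (hk : Hironaka k)
    (hK : Hironaka K) :
    (SecondCohomology T ↔ Surfaces T) ∧
    (SecondCohomology T ↔ DirectSums T) ∧
    (SecondCohomology T ↔ T.MumfordTateFor (SchemesUpTo 2)) ∧
    (SecondCohomology T ↔ T.MumfordTateFor (CubicsUpTo 4)) ∧
    (∀ X, SchemesUpTo 2 X ∨ CubicsUpTo 4 X → HasLowPieces T X) ∧
    (∀ X, IsSmProj X → ∀ i ≤ 2, FromCubics T (T.H i X)) ∧
    ∀ {k' K' : Type} [Field k'] [Field K'] (T' : Motives k' K' ℓ), Specializes 2 T' T →
      T.MumfordTateFor (CubicsUpTo 4) → SecondCohomology T' := by
  refine ⟨two_surfaces hT, two_low hT hK, two_schemes hT hk hK, two_cubics hT hk hK,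
    fun X hX v n => two_pieces hT hk hK hX v n, fun X hX i hi => two_gen hT hk hX i hi, ?_⟩
  intro k' K' _ _ T' hs h X' hX'
  obtain ⟨X, hX, h1⟩ := hs X' hX'
  exact h1 ((two_cubics hT hk hK).2 h X hX)

end Pool.Agent.Results.MP_6369ef_ag.TrilinearForms
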